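import Mathlib

/-!
# MP_cf13c7_al, Q2: a radical class of groups closed under Cartesian products, containing `ℤ`, not the class of all groups

THE CLASS. `Q α` (`α` an ordinal): the groups which are commutative, or all of whose elements are products `θ x * θ' y`, where `θ : M → G`,
`θ' : M' → G` are homomorphisms with normal images and `M`, `M'` are normal subgroups of Cartesian products of groups in `Q β`, `β < α`.
`Cl` is the union of the `Q α`. It is closed under images, normal subgroups, joins of normal subgroups and Cartesian products.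
THEOREM. No group in `Cl` has a subnormal subgroup with a homomorphism `f` to a countable free group `F` with non-commutative image.
PROOF. A state: groups `G i` in `Q (al i)`, a subnormal subgroup `K` of `∏ G i`, `f : K → F` with non-commutative image. Every state `S` has a successor `S'`
(`Stp`): a homomorphism `φ : K' → K` with normal image, `f' = f ∘ φ`, and solutions of systems `z_k = g_k^(ε_k) [b_k, z_{k+1}]` (`Solv`) can be
transferred from the coordinates `i'` with `al i' < al i` to the coordinate `i`. So for every infinite chain of states and `g_n, b_n ∈ K_n` the systems with the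
images of the `g_n, b_n` in `K_0` are solvable for all signs `ε`. `F` is countable, so two sign sequences have solutions with the same `f (z_0)`; this is impossible for a
good choice of `g_n, b_n` (`KEY`).

RULES. Row `rc:XX`: file `Pool/Agent/<seat>/RC/XX.lean`, `import Pool.Agent.helper92.RC.Spec`, `namespace Pool.Agent.helper92.RC`,
`open scoped commutatorElement`, `universe u`, theorem `XX : XX_stmt.{u}`; auxiliary lemmas with prefix `XX_`. No double quotes, no extra axioms. Report a FALSE statement at once.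
-/

set_option autoImplicit false

namespace Pool.Agent.helper92.RC

open scoped commutatorElement

universe u

/-- The systems `z_k = g_k^(ε_k) [b_k, z_{k+1}]` have solutions for all signs. -/
def Solv {G : Type u} [Group G] (g b : ℕ → G) : Prop :=
  ∀ ε : ℕ → Bool, ∃ z : ℕ → G, ∀ k, z k = (if ε k then g k else 1) * ⁅b k, z (k + 1)⁆

/-- A chain of subgroups, each normal in the one before; `C d` is a subnormal subgroup. -/
def IsCh {H : Type u} [Group H] (C : ℕ → Subgroup H) : Prop :=
  C 0 = ⊤ ∧ ∀ r, C (r + 1) ≤ C r ∧ ∀ x ∈ C (r + 1), ∀ y ∈ C r, y * x * y⁻¹ ∈ C (r + 1)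

/-- A subgroup is not commutative. -/
def NonComm {F : Type u} [Group F] (P : Subgroup F) : Prop := ∃ x ∈ P, ∃ y ∈ P, x * y ≠ y * x

/-- Good choice in a subgroup `P` of the free group. -/
def Good {F : Type u} [Group F] (P : Subgroup F) (β a : F) : Prop :=
  β ∈ P ∧ a ∈ ⁅P, P⁆ ∧ (∀ w ∈ ⁅P, P⁆, ∀ w' ∈ ⁅P, P⁆, ⁅β, w⁆ = ⁅β, w'⁆ → w = w') ∧
    (∀ w ∈ P, ∀ w' ∈ P, a * ⁅β, w⁆ ≠ ⁅β, w'⁆)

/-! ## Free groups -/

/-- **CYC** (short-medium). The subgroup `A` generated by `x, y` is commutative and free (`subgroupIsFreeOfIsFree`), so it has at most one free generator (two different generators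
`a ≠ b` do not commute: map them to two non-commuting permutations by `IsFreeGroup.lift`), so it is cyclic: if `Generators A` is empty then `A = 1`; else all elements are powers of the
generator (`IsFreeGroup` basis, `closure (range of) = ⊤`, or the isomorphism with `FreeGroup Unit` and `FreeGroup.freeGroupUnitEquivInt`). -/
def CYC_stmt : Prop := ∀ (F : Type u) [Group F] [IsFreeGroup F] (x y : F), x * y = y * x → ∃ (v : F) (s t : ℤ), x = v ^ s ∧ y = v ^ t

/-- **GEN** (short-medium). `P` is free; as it is not commutative, it has two free generators `x ≠ y` (if `Generators P` is subsingleton, `P` is commutative). `IsFreeGroup.lift`: `χ` maps `x` to `1`, the other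
generators to `0`; `χ'` the same for `y`; `ψ` maps `x` to the transposition `(0 1)`, `y` to `(1 2)`, the others to `1`. -/
def GEN_stmt : Prop := ∀ (F : Type u) [Group F] [IsFreeGroup F] (P : Subgroup F), NonComm P →
  ∃ (x y : P) (χ χ' : P →* Multiplicative ℤ) (ψ : P →* Equiv.Perm (Fin 3)), χ x = Multiplicative.ofAdd 1 ∧ χ y = 1 ∧
    χ' x = 1 ∧ χ' y = Multiplicative.ofAdd 1 ∧ ψ x = Equiv.swap 0 1 ∧ ψ y = Equiv.swap 1 2

/-- **TOR** (short). Torsion free: the subgroup generated by `x ≠ 1` is free, so there is a free generator `e`, a homomorphism `χ` with `χ e = 1 ∈ ℤ`, `e = x ^ k`, so `χ x ≠ 0`. Or search Mathlib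
(`FreeGroup.infinite_order` or similar, with `IsFreeGroup.toFreeGroup`). -/
def TOR_stmt : Prop := ∀ (F : Type u) [Group F] [IsFreeGroup F] (x : F) (n : ℤ), x ^ n = 1 → n ≠ 0 → x = 1

/-- **FZ** (short, from CYC, GEN). Suppose `c ∈ P` commutes with all elements of `P`, `c ≠ 1`. `CYC` in `P` for `c, x`: `c = v^s`, `x = v^t`; `t χ(v) = 1`, `t χ'(v) = 0`, so `χ'(v) = 0`, `χ'(c) = 0`. In the same way (`c, y`) `χ(c) = 0`, so `s χ(v) = 0`,
`s = 0`, `c = 1`. -/
def FZ_stmt : Prop := ∀ (F : Type u) [Group F] [IsFreeGroup F] (P : Subgroup F), NonComm P → ∀ x ∈ P, x ≠ 1 → ∃ y ∈ P, ⁅y, x⁆ ≠ 1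

/-- **FT** (medium, from CYC, TOR, FZ). Suppose `N` is commutative. It is free and commutative, so cyclic (as in `CYC`), `N = ⟨v⟩`, `v ≠ 1`. For `y ∈ P`: `y v y⁻¹ = v^a`, `y⁻¹ v y = v^b`, so `v = v^(a b)`, `a = ±1` by `TOR`. If `a = -1`: `y²` commutes with
`y` and `v`; `R = closure {y, v}`; if `R` is not commutative then `y² = 1` by `FZ`, `y = 1` by `TOR`, so `v = v⁻¹`; if `R` is commutative, `v = v⁻¹` too; so `v² = 1`, `v = 1`, a contradiction. So `v` commutes with all of `P`, against `FZ`.
(Another proof is welcome; a proof without cyclicity of `N`: take `x ∈ N`, `x ≠ 1`, `y ∈ P` with `[y, x] ≠ 1`; `x` and `y x y⁻¹` commute, `CYC`.) -/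
def FT_stmt : Prop := ∀ (F : Type u) [Group F] [IsFreeGroup F] (P N : Subgroup F), NonComm P → N ≤ P →
  (∀ x ∈ N, ∀ y ∈ P, y * x * y⁻¹ ∈ N) → N ≠ ⊥ → NonComm N

/-- **FB** (short-medium, from CYC, GEN). `β = x^6`, `a = ⁅x, y⁆`. (P2): `ψ (β) = 1` so `ψ ⁅β, w⁆ = 1`, but `ψ a ≠ 1`. (P1): `c = w'⁻¹ w` commutes with `β`: `CYC` in `P`: `c = v^s`, `x^6 = v^t`; `χ` is trivial on `⁅P, P⁆`, so `s χ(v) = 0`, `t χ(v) = 6`, `s = 0`, `c = 1`. -/
def FB_stmt : Prop := ∀ (F : Type u) [Group F] [IsFreeGroup F] (P : Subgroup F), NonComm P → ∃ β a : F, Good P β a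

/-! ## The key lemma -/

/-- **KEY** (medium). For every `ε` choose the solution `z^ε`. (1) All `z_k ∈ C d`: show `z_k ∈ C r` for all `k` by induction on `r ≤ d` (`b_k, g_k ∈ C d ≤ C (r+1)`, `⁅b, z⁆ = b (z b⁻¹ z⁻¹)`). (2) `w_k = f z_k`; `w_k ∈ P j` for all `k ≥ j` (induction on `j`, as `P (j+1)` is normalised
by `P j`, and `P` is antitone), so `w_k ∈ P k` and `w_{k+1} ∈ ⁅P (k+1), P (k+1)⁆ ≤ ⁅P k, P k⁆`. (3) `F` is countable and `ℕ → Bool` is not: two sequences `ε ≠ ε'` have the same `w_0`; let `k` be the first index where they differ; by (P1) and induction `w_j = w'_j` for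
`j ≤ k`; (P2) at `k` is a contradiction. -/
def KEY_stmt : Prop := ∀ (F : Type u) [Group F] [Countable F] (H : Type u) [Group H] (C : ℕ → Subgroup H) (d : ℕ), IsCh C →
  ∀ (f : C d →* F) (g b : ℕ → C d) (P : ℕ → Subgroup F), f.range ≤ P 0 →
    (∀ k, P (k + 1) ≤ P k ∧ ∀ x ∈ P (k + 1), ∀ y ∈ P k, y * x * y⁻¹ ∈ P (k + 1)) →
    (∀ k, Good (P k) (f (b k)) (f (g k))) → ¬ Solv (fun k => (g k : H)) (fun k => (b k : H))

/-- **LJ** (medium, from FZ). `T r = ⨆ s, C r ⊓ N s`. (1) `T (r+1)` is normalised by `C r` (closure induction). (2) for `k ∈ C (r+1)` and `y ∈ T r`: `⁅k, y⁆ ∈ T (r+1)` (closure induction on `y`: for `y ∈ C r ⊓ N s` it is in `C (r+1) ⊓ N s`;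
`⁅k, y y'⁆ = ⁅k, y⁆ * (y ⁅k, y'⁆ y⁻¹)`; `⁅k, y⁻¹⁆ = y⁻¹ ⁅k, y⁆⁻¹ y`). (3) for every `r ≤ d` there is `x ∈ C d`, `x ∈ T r`, `f x ≠ 1`: induction, `x' = ⁅k, x⁆` with `k ∈ C d` from `FZ` for `P = f.range`. (4) `r = d`: if `f y = 1` for all `y ∈ C d ⊓ N s` and all `s` then `f = 1` on `T d`
(the elements of `C d` in the kernel of `f`, mapped to `H`, are a subgroup containing all `C d ⊓ N s`). -/
def LJ_stmt : Prop := ∀ (F : Type u) [Group F] [IsFreeGroup F] (H : Type u) [Group H] (C : ℕ → Subgroup H) (d : ℕ), IsCh C →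
  ∀ (f : C d →* F), NonComm f.range → ∀ (N : Fin 3 → Subgroup H), (∀ s, (N s).Normal) → ∀ x : C d, f x ≠ 1 → (x : H) ∈ ⨆ s, N s →
    ∃ s, ∃ y : C d, (y : H) ∈ N s ∧ f y ≠ 1

/-! ## The class -/

/-- A piece of `G` over the class `𝒳`. -/
structure Piece (𝒳 : ∀ X : Type u, Group X → Prop) (G : Type u) [Group G] where
  /-- the index set -/
  L : Type u
  /-- the factors -/
  X : L → Type u
  /-- they are groups -/
  gX : ∀ l, Group (X l)
  /-- in the class -/
  hX : ∀ l, 𝒳 (X l) (gX l)
  /-- the subgroup of the product -/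
  M : Subgroup (∀ l, X l)
  /-- is normal -/
  hM : M.Normal
  /-- the homomorphism -/
  θ : M →* G
  /-- has a normal image -/
  hθ : θ.range.Normal

/-- The operator. -/
def Phi (𝒳 : ∀ X : Type u, Group X → Prop) (G : Type u) [Group G] : Prop :=
  (∀ x y : G, x * y = y * x) ∨ ∀ g : G, ∃ (p q : Piece 𝒳 G) (x : p.M) (y : q.M), g = p.θ x * q.θ y

/-- The classes `Q α`. -/
def Q (α : Ordinal.{u}) (G : Type u) (hG : Group G) : Prop :=
  @Phi (fun X hX => ∃ β : Set.Iio α, Q β.1 X hX) G hG
termination_by α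
decreasing_by exact β.2

theorem Q_iff (α : Ordinal.{u}) (G : Type u) (hG : Group G) : Q α G hG ↔ @Phi (fun X hX => ∃ β : Set.Iio α, Q β.1 X hX) G hG := by
  rw [Q]

/-- The class. -/
def Cl (G : Type u) [hG : Group G] : Prop := ∃ α : Ordinal.{u}, Q α G hG

/-! ## States -/

/-- States. -/
structure St (F : Type u) [Group F] where
  /-- the index set -/
  I : Type u
  /-- the groups -/
  G : I → Type u
  /-- are groups -/
  gG : ∀ i, Group (G i)
  /-- the ordinals -/
  al : I → Ordinal.{u}
  /-- membership -/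
  hQ : ∀ i, Q (al i) (G i) (gG i)
  /-- the chain -/
  C : ℕ → Subgroup (∀ i, G i)
  /-- its length -/
  d : ℕ
  /-- is a chain -/
  hC : IsCh C
  /-- the homomorphism -/
  f : C d →* F
  /-- has a non-commutative image -/
  hf : NonComm f.range

attribute [instance] St.gG Piece.gX

/-- `S'` is a successor of `S`. -/
def Stp {F : Type u} [Group F] (S S' : St F) : Prop :=
  ∃ φ : S'.C S'.d →* S.C S.d, S'.f = S.f.comp φ ∧ φ.range.Normal ∧
    ∀ (i : S.I) (g b : ℕ → S'.C S'.d),
      (∀ i' : S'.I, S'.al i' < S.al i →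
        Solv (fun k => (g k : ∀ j, S'.G j) i') (fun k => (b k : ∀ j, S'.G j) i')) →
      Solv (fun k => (φ (g k) : ∀ j, S.G j) i) (fun k => (φ (b k) : ∀ j, S.G j) i)

/-- **STB** (medium-long). One type of pieces: for the indices `i` with `p i = some q` a piece `q`, for the others nothing. `N` = the elements `h` of `∏ G i` with `h i ∈ range` (`p i = some q`), `h i = 1` (`p i = none`). Successor state: `I' = Σ i : {i // (p i).isSome}, L`,
`G' = X`, `al'` = the `β < al i` of the piece, `D = {x | ∀ i, x|_i ∈ M_i}` (normal), `Φ : D →* ∏ G i`, `Φ x i = θ (x|_i)` (`1` if `p i = none`), chain `C' 0 = ⊤`, `C' (r+1) = {x ∈ D | Φ x ∈ C r}`, `d' = d + 1`, `φ` the restriction of `Φ`, `f' = f ∘ φ`. The image of `φ` is `C d ⊓ N`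
(choice of preimages), so `f'` is not commutative by the last hypothesis, and it is normal in `C d`. Transfer: if `p i = none` the two sequences are `1`, take `z = 1`. If `p i = some q`: for `ε` take solutions `z^l` for all `l`, `z_k = (z_k^l)_l`, `g_k|_i, b_k|_i ∈ M`, `M` normal, so `z_k ∈ M`; apply `θ`.
(In the statement: `p i : Option (Piece _ (S.G i))`.) -/
def STB_stmt : Prop := ∀ (F : Type u) [Group F] (S : St F)
  (p : ∀ i, Option (Piece (fun X hX => ∃ β : Set.Iio (S.al i), Q β.1 X hX) (S.G i))),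
  (∃ x : S.C S.d, ∃ y : S.C S.d, (∀ i, (p i = none → (x : ∀ j, S.G j) i = 1) ∧ ∀ q, p i = some q → (x : ∀ j, S.G j) i ∈ q.θ.range) ∧
    (∀ i, (p i = none → (y : ∀ j, S.G j) i = 1) ∧ ∀ q, p i = some q → (y : ∀ j, S.G j) i ∈ q.θ.range) ∧ S.f x * S.f y ≠ S.f y * S.f x) →
  ∃ S' : St F, Stp S S'

/-- **STA** (medium, from LJ, FT, STB). Choose `x ∈ C d` with `f x ≠ 1` (`S.hf`). For every `i`: `Q_iff` and `S.hQ i`: `G i` is commutative, or there are two pieces with `x i = θ u * θ' v`. `N 0 = {h | h i = 1 for all non-commutative indices i}` (the indices where the second case is used), `N 1 = {h | h i ∈ θ.range` at the second-case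
indices, `h i = 1` at the others`}`, `N 2` the same with `θ'`; they are normal and `x ∈ ⨆ N s`. `LJ`: some `s` and `y ∈ C d`, `y ∈ N s`, `f y ≠ 1`. The image `R` of `C d ⊓ N s` under `f` is normalised by `f.range` and `≠ ⊥`, so not commutative by `FT`. If `s = 0`: `N 0` is commutative, a contradiction. If `s = 1, 2`:
`STB` with `p i = some` of the piece at the second-case indices, `none` at the others. -/
def STA_stmt : Prop := ∀ (F : Type u) [Group F] [IsFreeGroup F] (S : St F), ∃ S' : St F, Stp S S'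

/-- **TOW** (medium, from STA, FB, KEY). Suppose `S₀ : St F`. By `STA` and choice a sequence `S n` with `Stp (S n) (S (n+1))`, homomorphisms `φ n`. `P n = (S n).f.range`; `P (n+1)` is the image of the normal subgroup `(φ n).range`. `FB`: `β n, a n`, and `b n, g n ∈ K n = (S n).C (S n).d` with `f (b n) = β n`, `f (g n) = a n`.
`up x 0 n = x n`, `up x (k+1) n = φ n (up x k (n+1))` (recursion on `k` for all `n`); `(S n).f (up x k n) = (S (n+k)).f (x (n+k))` (state it with a function `v : ℕ → F`, `v m = (S m).f (x m)`). Claim: for all `n, i`: `Solv (fun k => (up g k n) i) (fun k => (up b k n) i)`, by well-founded induction on the ordinal `(S n).al i`, for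
all `n, i`: the transfer property of `φ n` gives it for the shifted sequences `k ↦ up g (k+1) n`; put `z_0 = g_0^ε_0 ⁅b_0, z_1⁆` in front. For `n = 0`, coordinatewise, `Solv` in the product; `KEY`. -/
def TOW_stmt : Prop := ∀ (F : Type u) [Group F] [IsFreeGroup F] [Countable F], St F → False

/-! ## Closure properties -/

/-- **QMO** (short). Monotone: the pieces for `α` are pieces for `α' ≥ α`. -/
def QMO_stmt : Prop := ∀ (α α' : Ordinal.{u}) (G : Type u) (hG : Group G), α ≤ α' → Q α G hG → Q α' G hG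

/-- **QIM** (short). Compose `θ` with the surjection `f`; the image of a normal subgroup under a surjection is normal. -/
def QIM_stmt : Prop := ∀ (G H : Type u) [Group G] [Group H] (f : G →* H), Function.Surjective f → Cl G → Cl H

/-- **QPI** (short-medium). The basic piece: from groups `X l` in `Cl` with ordinals `β l`, `M` normal in the product, `θ : M →* G` with normal image; used below: if every `g : G` is `θ x * θ' y` for such pieces then `Cl G`: the ordinal is the supremum over `g : G` and the indices of the `β l + 1` (`Ordinal.lt_iSup_add_one` or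
`Order.succ (⨆ ..)`, `Ordinal.le_iSup`; the index types are in `Type u`). -/
def QPI_stmt : Prop := ∀ (G : Type u) [Group G], (∀ g : G, ∃ (p q : Piece (fun X hX => @Cl X hX) G) (x : p.M) (y : q.M), g = p.θ x * q.θ y) → Cl G

/-- **QNO** (short-medium, from QPI). `L = PUnit`, `X = G`, `M = {x | x () ∈ N}`, `θ x = ⟨x (), _⟩`, image `⊤`; the second factor is `θ 1`. -/
def QNO_stmt : Prop := ∀ (G : Type u) [Group G] (N : Subgroup G), N.Normal → Cl G → Cl N

/-- **QPR** (short, from QPI). `L = I`, `M = ⊤`, `θ` the inclusion. -/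
def QPR_stmt : Prop := ∀ (I : Type u) (G : I → Type u) [∀ i, Group (G i)], (∀ i, Cl (G i)) → Cl (∀ i, G i)

/-- **QJO** (medium, from QPI). (1) For normal `A, B` with `Cl A`, `Cl B`: `Cl (A ⊔ B)`: every `g ∈ A ⊔ B` is `a * b`; the pieces have `L = PUnit`, `X = A` (`B`), `M = ⊤`, `θ x = ⟨x (), _⟩`, the image is normal as `A` is normal in `G`. (2) The set of normal `N` with `Cl N` is nonempty (`⊥` is commutative) and closed under `⊔`, so
every `g` is in one `N` (`Subgroup.mem_sSup_of_directedOn`); piece `L = PUnit`, `X = N`, `M = ⊤`, `θ x = x ()`. -/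
def QJO_stmt : Prop := ∀ (G : Type u) [Group G], sSup {N : Subgroup G | N.Normal ∧ Cl N} = ⊤ → Cl G

/-- **QFR** (short-medium, from TOW). `F = FreeGroup (ULift Bool)` is countable and free. If `Cl F`, say `Q α F`, then the state with `I = PUnit`, `G = F`, `al = α`, `C = ⊤` (constant), `d = 0`, `f x = x ()`: the image is `⊤`, not commutative. -/
def QFR_stmt : Prop := ¬ Cl (FreeGroup (ULift.{u} Bool))

/-- Commutative groups are in the class. -/
theorem Cl_comm (G : Type u) [hG : Group G] (h : ∀ x y : G, x * y = y * x) : Cl G := ⟨0, (Q_iff 0 G hG).2 (Or.inl h)⟩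

end Pool.Agent.helper92.RC
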