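import Pool.Agent.helper92.RC.Spec

/-!
# Row STB of MP_cf13c7_al
-/

set_option autoImplicit false

namespace Pool.Agent.helper92.RC

open scoped commutatorElement

universe u

section

variable {I : Type u} {G : I → Type u} [gG : ∀ i, Group (G i)] {𝒳 : I → ∀ X : Type u, Group X → Prop}
  {J : I → Prop} (q : ∀ i : {i // J i}, Piece (𝒳 i.1) (G i.1))

/-- The new index set. -/
abbrev STB_I : Type u := Σ i : {i // J i}, (q i).L

/-- The new groups. -/
abbrev STB_G (j : STB_I q) : Type u := (q j.1).X j.2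

/-- Restriction to a block. -/
def STB_ev (i : {i // J i}) : (∀ j : STB_I q, STB_G q j) →* (∀ l, (q i).X l) where
  toFun x := fun l => x ⟨i, l⟩
  map_one' := rfl
  map_mul' _ _ := rfl

/-- The domain. -/
def STB_D : Subgroup (∀ j : STB_I q, STB_G q j) := ⨅ i, (q i).M.comap (STB_ev q i)

theorem STB_memD (x : ∀ j : STB_I q, STB_G q j) : x ∈ STB_D q ↔ ∀ i, STB_ev q i x ∈ (q i).M := by
  unfold STB_D
  rw [Subgroup.mem_iInf]
  rfl

theorem STB_normD (x y : ∀ j : STB_I q, STB_G q j) (h : x ∈ STB_D q) : y * x * y⁻¹ ∈ STB_D q := by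
  rw [STB_memD] at h ⊢
  intro i
  rw [map_mul, map_mul, map_inv]
  exact (q i).hM.conj_mem _ (h i) _

open Classical in
/-- The homomorphism. -/
noncomputable def STB_Phi : STB_D q →* (∀ i, G i) where
  toFun x := fun i => if h : J i then (q ⟨i, h⟩).θ ⟨STB_ev q ⟨i, h⟩ x.1, (STB_memD q x.1).1 x.2 ⟨i, h⟩⟩ else 1
  map_one' := by
    funext i
    by_cases h : J i
    · simp only [h, dif_pos]
      exact map_one _
    · simp only [h, dif_neg, not_false_eq_true]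
      rfl
  map_mul' x y := by
    funext i
    by_cases h : J i
    · simp only [h, dif_pos, Pi.mul_apply]
      rw [← map_mul]
      rfl
    · simp only [h, dif_neg, not_false_eq_true, Pi.mul_apply, mul_one]

theorem STB_Phi_pos (x : STB_D q) (i : I) (h : J i) :
    STB_Phi q x i = (q ⟨i, h⟩).θ ⟨STB_ev q ⟨i, h⟩ x.1, (STB_memD q x.1).1 x.2 ⟨i, h⟩⟩ := by
  unfold STB_Phi
  simp only [MonoidHom.coe_mk, OneHom.coe_mk]
  exact dif_pos h

theorem STB_Phi_neg (x : STB_D q) (i : I) (h : ¬ J i) : STB_Phi q x i = 1 := by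
  unfold STB_Phi
  simp only [MonoidHom.coe_mk, OneHom.coe_mk]
  exact dif_neg h

/-- The new chain. -/
noncomputable def STB_C (C : ℕ → Subgroup (∀ i, G i)) : ℕ → Subgroup (∀ j : STB_I q, STB_G q j)
  | 0 => ⊤
  | r + 1 => ((C r).comap (STB_Phi q)).map (STB_D q).subtype

theorem STB_memC (C : ℕ → Subgroup (∀ i, G i)) (r : ℕ) (x : ∀ j : STB_I q, STB_G q j) :
    x ∈ STB_C q C (r + 1) ↔ ∃ h : x ∈ STB_D q, STB_Phi q ⟨x, h⟩ ∈ C r := by
  unfold STB_C
  constructor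
  · rintro ⟨y, hy, rfl⟩
    exact ⟨y.2, hy⟩
  · rintro ⟨h, h'⟩
    exact ⟨⟨x, h⟩, h', rfl⟩

theorem STB_isCh (C : ℕ → Subgroup (∀ i, G i)) (hC : IsCh C) : IsCh (STB_C q C) := by
  refine ⟨rfl, ?_⟩
  intro r
  cases r with
  | zero =>
    refine ⟨le_top, ?_⟩
    intro x hx y _
    rw [STB_memC] at hx ⊢
    obtain ⟨h, _⟩ := hx
    refine ⟨STB_normD q x y h, ?_⟩
    rw [hC.1]
    exact Subgroup.mem_top _
  | succ r =>
    constructor
    · intro x hx
      rw [STB_memC] at hx ⊢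
      obtain ⟨h, h'⟩ := hx
      exact ⟨h, (hC.2 r).1 h'⟩
    · intro x hx y hy
      rw [STB_memC] at hx hy ⊢
      obtain ⟨h, h'⟩ := hx
      obtain ⟨k, k'⟩ := hy
      refine ⟨STB_normD q x y h, ?_⟩
      have e : (⟨y * x * y⁻¹, STB_normD q x y h⟩ : STB_D q) = ⟨y, k⟩ * ⟨x, h⟩ * ⟨y, k⟩⁻¹ := rfl
      rw [e, map_mul, map_mul, map_inv]
      exact (hC.2 r).2 _ h' _ k'

/-- The restricted homomorphism. -/
noncomputable def STB_phi (C : ℕ → Subgroup (∀ i, G i)) (d : ℕ) : STB_C q C (d + 1) →* C d where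
  toFun x := ⟨STB_Phi q ⟨x.1, ((STB_memC q C d x.1).1 x.2).1⟩, ((STB_memC q C d x.1).1 x.2).2⟩
  map_one' := by
    apply Subtype.ext
    change STB_Phi q 1 = 1
    exact map_one _
  map_mul' x y := by
    apply Subtype.ext
    change STB_Phi q (⟨x.1, ((STB_memC q C d x.1).1 x.2).1⟩ * ⟨y.1, ((STB_memC q C d y.1).1 y.2).1⟩) = _
    rw [map_mul]
    rfl

theorem STB_phi_coe (C : ℕ → Subgroup (∀ i, G i)) (d : ℕ) (x : STB_C q C (d + 1)) :
    (STB_phi q C d x : ∀ i, G i) = STB_Phi q ⟨x.1, ((STB_memC q C d x.1).1 x.2).1⟩ := rfl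

/-- The image of `phi`. -/
theorem STB_range (C : ℕ → Subgroup (∀ i, G i)) (d : ℕ) (y : C d) :
    y ∈ (STB_phi q C d).range ↔ ∀ i, (¬ J i → (y : ∀ i, G i) i = 1) ∧
      ∀ h : J i, (y : ∀ i, G i) i ∈ (q ⟨i, h⟩).θ.range := by
  constructor
  · rintro ⟨x, rfl⟩ i
    constructor
    · intro h
      rw [STB_phi_coe, STB_Phi_neg q _ i h]
    · intro h
      rw [STB_phi_coe, STB_Phi_pos q _ i h]
      exact ⟨_, rfl⟩
  · intro hy
    have hm : ∀ i : {i // J i}, ∃ m : (q i).M, (q i).θ m = (y : ∀ i, G i) i.1 := fun i => (hy i.1).2 i.2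
    choose m hm using hm
    let x : ∀ j : STB_I q, STB_G q j := fun j => (m j.1).1 j.2
    have hx : x ∈ STB_D q := by
      rw [STB_memD]
      intro i
      exact (m i).2
    have hP : STB_Phi q ⟨x, hx⟩ = (y : ∀ i, G i) := by
      funext i
      by_cases h : J i
      · rw [STB_Phi_pos q _ i h]
        exact hm ⟨i, h⟩
      · rw [STB_Phi_neg q _ i h, (hy i).1 h]
    refine ⟨⟨x, (STB_memC q C d x).2 ⟨hx, ?_⟩⟩, ?_⟩
    · rw [hP]
      exact y.2
    · apply Subtype.ext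
      rw [STB_phi_coe]
      exact hP

theorem STB_normal (C : ℕ → Subgroup (∀ i, G i)) (d : ℕ) : (STB_phi q C d).range.Normal := by
  constructor
  intro a ha g
  rw [STB_range] at ha ⊢
  intro i
  constructor
  · intro h
    change (g : ∀ i, G i) i * (a : ∀ i, G i) i * ((g : ∀ i, G i) i)⁻¹ = 1
    rw [(ha i).1 h]
    simp
  · intro h
    change (g : ∀ i, G i) i * (a : ∀ i, G i) i * ((g : ∀ i, G i) i)⁻¹ ∈ _
    exact (q ⟨i, h⟩).hθ.conj_mem _ ((ha i).2 h) _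

theorem STB_transfer (C : ℕ → Subgroup (∀ i, G i)) (d : ℕ) (i : I) (g b : ℕ → STB_C q C (d + 1))
    (hyp : ∀ j : STB_I q, j.1.1 = i → Solv (fun k => (g k : ∀ j, STB_G q j) j) (fun k => (b k : ∀ j, STB_G q j) j)) :
    Solv (fun k => (STB_phi q C d (g k) : ∀ j, G j) i) (fun k => (STB_phi q C d (b k) : ∀ j, G j) i) := by
  by_cases h : J i
  · intro ε
    have h1 : ∀ l : (q ⟨i, h⟩).L, ∃ z : ℕ → (q ⟨i, h⟩).X l, ∀ k, z k =
        (if ε k then (g k : ∀ j, STB_G q j) ⟨⟨i, h⟩, l⟩ else 1) * ⁅(b k : ∀ j, STB_G q j) ⟨⟨i, h⟩, l⟩, z (k + 1)⁆ :=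
      fun l => hyp ⟨⟨i, h⟩, l⟩ rfl ε
    choose z hz using h1
    let gg : ℕ → ∀ l, (q ⟨i, h⟩).X l := fun k => STB_ev q ⟨i, h⟩ (g k).1
    let bb : ℕ → ∀ l, (q ⟨i, h⟩).X l := fun k => STB_ev q ⟨i, h⟩ (b k).1
    let zz : ℕ → ∀ l, (q ⟨i, h⟩).X l := fun k l => z l k
    have hgg : ∀ k, gg k ∈ (q ⟨i, h⟩).M := fun k =>
      (STB_memD q _).1 ((STB_memC q C d _).1 (g k).2).1 ⟨i, h⟩
    have hbb : ∀ k, bb k ∈ (q ⟨i, h⟩).M := fun k =>
      (STB_memD q _).1 ((STB_memC q C d _).1 (b k).2).1 ⟨i, h⟩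
    have hzz : ∀ k, zz k = (if ε k then gg k else 1) * ⁅bb k, zz (k + 1)⁆ := by
      intro k
      funext l
      have := hz l k
      change z l k = _
      rw [this]
      by_cases e : ε k = true
      · rw [if_pos e, if_pos e]
        rfl
      · rw [if_neg e, if_neg e]
        rfl
    have hM := (q ⟨i, h⟩).hM
    have hmem : ∀ k, zz k ∈ (q ⟨i, h⟩).M := by
      intro k
      rw [hzz k]
      refine Subgroup.mul_mem _ ?_ ?_
      · by_cases e : ε k = true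
        · rw [if_pos e]
          exact hgg k
        · rw [if_neg e]
          exact Subgroup.one_mem _
      · rw [commutatorElement_def, mul_assoc, mul_assoc, ← mul_assoc (zz (k + 1))]
        exact Subgroup.mul_mem _ (hbb k) (hM.conj_mem _ (Subgroup.inv_mem _ (hbb k)) _)
    refine ⟨fun k => (q ⟨i, h⟩).θ ⟨zz k, hmem k⟩, ?_⟩
    intro k
    have e1 : (⟨zz k, hmem k⟩ : (q ⟨i, h⟩).M) =
        (if ε k then ⟨gg k, hgg k⟩ else 1) * ⁅(⟨bb k, hbb k⟩ : (q ⟨i, h⟩).M), ⟨zz (k + 1), hmem (k + 1)⟩⁆ := by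
      apply Subtype.ext
      change zz k = _
      rw [hzz k]
      by_cases e : ε k = true
      · rw [if_pos e, if_pos e]
        rfl
      · rw [if_neg e, if_neg e]
        rfl
    have e2 : (STB_phi q C d (g k) : ∀ j, G j) i = (q ⟨i, h⟩).θ ⟨gg k, hgg k⟩ := by
      rw [STB_phi_coe, STB_Phi_pos q _ i h]
    have e3 : (STB_phi q C d (b k) : ∀ j, G j) i = (q ⟨i, h⟩).θ ⟨bb k, hbb k⟩ := by
      rw [STB_phi_coe, STB_Phi_pos q _ i h]
    change (q ⟨i, h⟩).θ ⟨zz k, hmem k⟩ = (if ε k then (STB_phi q C d (g k) : ∀ j, G j) i else 1) *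
      ⁅(STB_phi q C d (b k) : ∀ j, G j) i, (q ⟨i, h⟩).θ ⟨zz (k + 1), hmem (k + 1)⟩⁆
    rw [e1, e2, e3, map_mul, map_commutatorElement]
    by_cases e : ε k = true
    · rw [if_pos e, if_pos e]
    · rw [if_neg e, if_neg e, map_one]
  · intro ε
    refine ⟨fun _ => 1, ?_⟩
    intro k
    have e2 : (STB_phi q C d (g k) : ∀ j, G j) i = 1 := by
      rw [STB_phi_coe, STB_Phi_neg q _ i h]
    change (1 : G i) = (if ε k then (STB_phi q C d (g k) : ∀ j, G j) i else 1) *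
      ⁅(STB_phi q C d (b k) : ∀ j, G j) i, 1⁆
    rw [e2]
    simp

end

/-- The class for the pieces. -/
abbrev STB_X {F : Type u} [Group F] (S : St F) (i : S.I) : ∀ X : Type u, Group X → Prop :=
  fun X hX => ∃ β : Set.Iio (S.al i), Q β.1 X hX

theorem STB_main {F : Type u} [Group F] (S : St F) (J : S.I → Prop)
    (q : ∀ i : {i // J i}, Piece (STB_X S i.1) (S.G i.1))
    (x y : S.C S.d) (hx : x ∈ (STB_phi (𝒳 := STB_X S) q S.C S.d).range)
    (hy : y ∈ (STB_phi (𝒳 := STB_X S) q S.C S.d).range) (hxy : S.f x * S.f y ≠ S.f y * S.f x) :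
    ∃ S' : St F, Stp S S' := by
  obtain ⟨x', hx'⟩ := hx
  obtain ⟨y', hy'⟩ := hy
  have hβ : ∀ j : STB_I (𝒳 := STB_X S) q,
      ∃ β : Set.Iio (S.al j.1.1), Q β.1 ((q j.1).X j.2) ((q j.1).gX j.2) := by
    intro j
    exact (q j.1).hX j.2
  choose β hβ using hβ
  have hf : NonComm (S.f.comp (STB_phi (𝒳 := STB_X S) q S.C S.d)).range := by
    refine ⟨S.f x, ⟨x', ?_⟩, S.f y, ⟨y', ?_⟩, hxy⟩
    · rw [MonoidHom.comp_apply, hx']
    · rw [MonoidHom.comp_apply, hy']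
  refine ⟨⟨STB_I (𝒳 := STB_X S) q, STB_G (𝒳 := STB_X S) q, fun j => (q j.1).gX j.2, fun j => (β j).1, hβ,
    STB_C (𝒳 := STB_X S) q S.C, S.d + 1, STB_isCh (𝒳 := STB_X S) q S.C S.hC,
    S.f.comp (STB_phi (𝒳 := STB_X S) q S.C S.d), hf⟩, STB_phi (𝒳 := STB_X S) q S.C S.d, rfl,
    STB_normal (𝒳 := STB_X S) q S.C S.d, ?_⟩
  intro i g b hgb
  apply STB_transfer (𝒳 := STB_X S) q S.C S.d i g b
  intro j hj
  apply hgb j
  have := (β j).2
  change (β j).1 < S.al i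
  rw [← hj]
  exact this

theorem STB : STB_stmt.{u} := by
  intro F _ S p hyp
  classical
  let J : S.I → Prop := fun i => (p i).isSome = true
  let q : ∀ i : {i // J i}, Piece (STB_X S i.1) (S.G i.1) := fun i => (p i.1).get i.2
  have hq : ∀ i : {i // J i}, p i.1 = some (q i) := fun i => (Option.some_get i.2).symm
  have hconv : ∀ x : S.C S.d, (∀ i, (p i = none → (x : ∀ j, S.G j) i = 1) ∧ ∀ q, p i = some q → (x : ∀ j, S.G j) i ∈ q.θ.range) →
      x ∈ (STB_phi (𝒳 := STB_X S) q S.C S.d).range := by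
    intro x hx
    rw [STB_range]
    intro i
    constructor
    · intro h
      apply (hx i).1
      cases e : p i with
      | none => rfl
      | some w =>
        exfalso
        apply h
        change (p i).isSome = true
        rw [e]
        rfl
    · intro h
      exact (hx i).2 _ (hq ⟨i, h⟩)
  obtain ⟨x, y, hx, hy, hxy⟩ := hyp
  exact STB_main S J q x y (hconv x hx) (hconv y hy) hxy

end Pool.Agent.helper92.RC
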